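import Mathlib

set_option autoImplicit false

/-! The curves `y ^ 2 = x ^ 3 - N ^ 2 * x`: group law, heights, finite generation. -/

namespace Pool.Agent.LocInv

open WeierstrassCurve WeierstrassCurve.Affine WeierstrassCurve.Affine.Point Height

/-- The curve `y ^ 2 = x ^ 3 - N ^ 2 * x`. -/
def cn {K : Type} [Field K] (N : K) : WeierstrassCurve K := ⟨0, 0, 0, -N ^ 2, 0⟩

lemma cn_ell {K : Type} [Field K] [CharZero K] {N : K} (hN : N ≠ 0) : (cn N).IsElliptic := by
  refine ⟨?_⟩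
  have : (cn N).Δ = 64 * N ^ 6 := by
    simp [cn, Δ, b₂, b₄, b₆, b₈]; ring
  rw [this]
  exact isUnit_iff_ne_zero.2 (mul_ne_zero (by norm_num) (pow_ne_zero _ hN))

abbrev G (N : ℚ) := (cn N).toAffine.Point

lemma eqn {N x y : ℚ} (h : (cn N).toAffine.Nonsingular x y) : y ^ 2 = x ^ 3 - N ^ 2 * x := by
  have := (equation_iff _ _).1 h.1
  simp [cn] at this
  linarith

lemma mkNS {N x y : ℚ} (hN : N ≠ 0) (h : y ^ 2 = x ^ 3 - N ^ 2 * x) :
    (cn N).toAffine.Nonsingular x y := by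
  have := cn_ell hN
  apply equation_iff_nonsingular.1
  rw [equation_iff]
  simp [cn]
  linarith

lemma negY_cn (N x y : ℚ) : (cn N).toAffine.negY x y = -y := by simp [cn, negY]

lemma add_struct {N x₁ y₁ x₂ y₂ : ℚ} (h₁ : (cn N).toAffine.Nonsingular x₁ y₁)
    (h₂ : (cn N).toAffine.Nonsingular x₂ y₂) (hxy : ¬ (x₁ = x₂ ∧ y₁ = -y₂)) :
    ∃ (l x₃ y₃ : ℚ) (h₃ : (cn N).toAffine.Nonsingular x₃ y₃),
      (some x₁ y₁ h₁ : G N) + some x₂ y₂ h₂ = some x₃ y₃ h₃ ∧ x₃ = l ^ 2 - x₁ - x₂ ∧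
      y₁ - y₂ = l * (x₁ - x₂) ∧
      x₁ ^ 2 + x₁ * x₂ + x₂ ^ 2 - l ^ 2 * (x₁ + x₂) - N ^ 2 - 2 * l * (y₁ - l * x₁) = 0 := by
  have e1 := eqn h₁
  have e2 := eqn h₂
  refine ⟨(cn N).toAffine.slope x₁ x₂ y₁ y₂, _, _, _,
    add_some (by rwa [negY_cn]), by simp [cn, addX], ?_⟩
  by_cases hx : x₁ = x₂
  · subst hx
    have hy : y₁ ≠ -y₂ := fun h => hxy ⟨rfl, h⟩
    have hy2 : y₁ = y₂ := by
      have : (y₁ - y₂) * (y₁ + y₂) = 0 := by linear_combination e1 - e2
      rcases mul_eq_zero.1 this with h | h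
      · linarith
      · exact absurd (by linarith) hy
    subst hy2
    have hy0 : y₁ ≠ 0 := fun h => hy (by rw [h]; simp)
    rw [slope_of_Y_ne rfl (by rwa [negY_cn]), negY_cn]
    simp only [cn, toAffine]
    refine ⟨by simp, ?_⟩
    have : y₁ - -y₁ = 2 * y₁ := by ring
    rw [this]
    field_simp
    ring
  · rw [slope_of_X_ne hx]
    have hx0 : x₁ - x₂ ≠ 0 := sub_ne_zero.2 hx
    refine ⟨by field_simp, ?_⟩
    field_simp
    linear_combination (x₁ - x₂) * e2 - (x₁ - x₂) * e1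

lemma addSub_eval (N s t u : ℚ) : (fun i => ((cn N).addSubMap i).eval ![s, t, u]) =
    ![s ^ 2 + 2 * N ^ 2 * s * u + N ^ 4 * u ^ 2, 2 * t * s - 2 * N ^ 2 * t * u,
      t ^ 2 - 4 * s * u] := by
  ext i
  fin_cases i <;> simp [addSubMap, cn, b₂, b₄, b₆, b₈, -mul_eq_mul_right_iff] <;> ring

lemma sym_addSub {N : ℚ} (hN : N ≠ 0) (P Q : G N) : ∃ c : ℚ, c ≠ 0 ∧
    (fun i => ((cn N).addSubMap i).eval (P.sym2x Q)) = c • (P + Q).sym2x (P - Q) := by
  have dbl : ∀ (x y : ℚ) (h : (cn N).toAffine.Nonsingular x y), ∃ c : ℚ, c ≠ 0 ∧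
      (fun i => ((cn N).addSubMap i).eval ![x * x, x + x, 1]) =
        c • ((some x y h : G N) + some x y h).sym2x 0 := by
    intro x y h
    have e := eqn h
    rw [addSub_eval]
    by_cases hy : y = 0
    · rw [add_self_of_Y_eq (by rw [negY_cn, hy]; simp), sym2x_zero_zero]
      refine ⟨(x ^ 2 + N ^ 2) ^ 2, by positivity, ?_⟩
      subst hy
      ext i
      fin_cases i <;> simp
      · ring
      · linear_combination (-4) * e
      · ring
    · obtain ⟨l, x₃, y₃, h₃, e1, e2, -, e4⟩ := add_struct h h (fun hh => hy (by linarith [hh.2]))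
      rw [e1, sym2x_some_zero]
      refine ⟨4 * y ^ 2, by positivity, ?_⟩
      ext i
      fin_cases i <;> simp
      · rw [e2]
        linear_combination (3 * x ^ 2 - N ^ 2 + 2 * l * y) * e4 + 8 * x * e
      · linear_combination (-4) * e
      · ring
  match P, Q with
  | 0, 0 => exact ⟨1, one_ne_zero, by rw [sym2x_zero_zero, addSub_eval]; simp⟩
  | 0, .some x y h =>
    refine ⟨1, one_ne_zero, ?_⟩
    rw [sym2x_zero_some, addSub_eval, zero_add, zero_sub, sym2x_neg_right, sym2x_some_some]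
    ext i
    fin_cases i <;> simp <;> ring
  | .some x y h, 0 =>
    refine ⟨1, one_ne_zero, ?_⟩
    rw [sym2x_some_zero, addSub_eval, add_zero, sub_zero, sym2x_some_some]
    ext i
    fin_cases i <;> simp <;> ring
  | .some x₁ y₁ h₁, .some x₂ y₂ h₂ =>
    by_cases hx : x₁ = x₂
    · rcases (X_eq_iff (h₁ := h₁) (h₂ := h₂)).1 hx with h | h
      · rw [← h, sub_self, sym2x_some_some]
        exact dbl x₁ y₁ h₁
      · rw [h, sym2x_neg_left, neg_add_cancel, ← neg_add', sym2x_neg_right, sym2x_comm 0,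
          sym2x_some_some]
        exact dbl x₂ y₂ h₂
    · have e1 := eqn h₁
      have e2 := eqn h₂
      have hx0 : x₁ - x₂ ≠ 0 := sub_ne_zero.2 hx
      rw [sub_eq_add_neg, neg_some]
      obtain ⟨l, x₃, y₃, h₃, a1, a2, a3, -⟩ := add_struct h₁ h₂ (fun hh => hx hh.1)
      obtain ⟨m, x₄, y₄, h₄, b1, b2, b3, -⟩ := add_struct h₁ ((nonsingular_neg ..).mpr h₂)
        (fun hh => hx hh.1)
      rw [a1, b1, sym2x_some_some, sym2x_some_some, addSub_eval]
      rw [negY_cn] at b3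
      have a4 : l = (y₁ - y₂) / (x₁ - x₂) := by rw [a3]; field_simp
      have b4 : m = (y₁ + y₂) / (x₁ - x₂) := by rw [eq_div_iff hx0, ← b3]; ring
      have a5 : x₃ * (x₁ - x₂) ^ 2 = (x₁ * x₂ - N ^ 2) * (x₁ + x₂) - 2 * y₁ * y₂ := by
        rw [a2, a4]; field_simp; linear_combination e1 + e2
      have b5 : x₄ * (x₁ - x₂) ^ 2 = (x₁ * x₂ - N ^ 2) * (x₁ + x₂) + 2 * y₁ * y₂ := by
        rw [b2, b4]; field_simp; linear_combination e1 + e2
      refine ⟨(x₁ - x₂) ^ 2, by positivity, ?_⟩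
      ext i
      fin_cases i <;> simp
      · apply mul_left_cancel₀ (pow_ne_zero 2 hx0)
        linear_combination (-(x₄ * (x₁ - x₂) ^ 2)) * a5 -
          ((x₁ * x₂ - N ^ 2) * (x₁ + x₂) - 2 * y₁ * y₂) * b5 + 4 * y₂ ^ 2 * e1 +
          4 * (x₁ ^ 3 - N ^ 2 * x₁) * e2
      · linear_combination (-1) * a5 - b5
      · ring

/-- The naive height. -/
noncomputable def ht {N : ℚ} (P : G N) : ℝ := logHeight P.xRep

lemma ht_par {N : ℚ} (hN : N ≠ 0) :
    ∃ C, ∀ P Q : G N, |ht (P + Q) + ht (P - Q) - 2 * (ht P + ht Q)| ≤ C := by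
  have := cn_ell hN
  obtain ⟨C1, h1⟩ := (cn N).abs_logHeight_addSubMap_sub_two_mul_logHeight_le
  obtain ⟨C2, h2⟩ := abs_logHeight_sym2_sub_le ℚ
  have h3 : ∀ P Q : G N, |logHeight (P.sym2x Q) - (ht P + ht Q)| ≤ C2 := by
    intro P Q
    have e : ∀ R : G N, R.xRep = ![R.xRep 0, R.xRep 1] := fun R => by
      ext i; fin_cases i <;> rfl
    have := h2 (e P ▸ P.xRep_ne_zero) (e Q ▸ Q.xRep_ne_zero)
    rw [← e, ← e] at this
    have e2 : P.sym2x Q = ![P.xRep 0 * Q.xRep 0, P.xRep 0 * Q.xRep 1 + P.xRep 1 * Q.xRep 0,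
        P.xRep 1 * Q.xRep 1] := by
      cases P <;> cases Q <;> simp [← zero_def]
    rw [e2]
    exact this
  refine ⟨C1 + 3 * C2, fun P Q => ?_⟩
  obtain ⟨c, hc, e⟩ := sym_addSub hN P Q
  have a1 := h1 (P.sym2x Q)
  rw [e, logHeight_smul_eq_logHeight _ hc] at a1
  have a2 := h3 P Q
  have a3 := h3 (P + Q) (P - Q)
  rw [abs_le] at *
  constructor <;> linarith

instance {N : ℚ} : Northcott (ht (N := N)) where
  finite_le B := by
    have h1 : {x : ℚ | logHeight₁ x ≤ B}.Finite := Northcott.finite_le B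
    have h2 : ∀ x : ℚ, {P : G N | P.xRep = ![x, 1]}.Finite := by
      intro x
      rcases Set.eq_empty_or_nonempty {P : G N | P.xRep = ![x, 1]} with h | ⟨Q, hQ⟩
      · rw [h]; exact Set.finite_empty
      · refine (Set.toFinite {Q, -Q}).subset fun P hP => ?_
        exact eq_or_eq_neg_of_xRep_eq_xRep (hP.trans hQ.symm)
    refine ((h1.biUnion fun x _ => h2 x).insert 0).subset fun P hP => ?_
    match P with
    | 0 => simp
    | .some x y h =>
      right
      simp only [Set.mem_iUnion]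
      exact ⟨x, by simpa [ht, logHeight₁_eq_logHeight] using hP, rfl⟩

lemma fg_of_index {N : ℚ} (hN : N ≠ 0)
    (h : (nsmulAddMonoidHom (α := G N) 2).range.FiniteIndex) : AddGroup.FG (G N) := by
  obtain ⟨C, hC⟩ := ht_par hN
  exact AddCommGroup.fg_of_descent' (h := ht) h (fun P => logHeight_nonneg _) hC

lemma index_eq {A : Type} [AddCommGroup A] (h : AddGroup.FG A) :
    ((nsmulAddMonoidHom (α := A) 2).range ⊔ AddCommGroup.torsion A).index =
      2 ^ Module.finrank ℤ A := by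
  have : Module.Finite ℤ A := Module.Finite.iff_addGroup_fg.2 h
  set T := (AddCommGroup.torsion A).toIntSubmodule with hT
  have hT2 : T = Submodule.torsion ℤ A := by
    rw [hT, ← Submodule.torsion_int, Submodule.toAddSubgroup_toIntSubmodule]
  have : Module.IsTorsionFree ℤ (A ⧸ T) := by rw [hT2]; infer_instance
  have : Module.Free ℤ (A ⧸ T) := Module.free_of_finite_type_torsion_free'
  rw [← finrank_quotient_torsion_eq, ← AddSubgroup.index_range_nsmul (A ⧸ T) 2,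
    ← AddSubgroup.index_comap_of_surjective _ (f := T.mkQ.toAddMonoidHom) T.mkQ_surjective]
  congr 1
  ext x
  simp only [AddSubgroup.mem_sup, AddMonoidHom.mem_range, nsmulAddMonoidHom_apply,
    AddSubgroup.mem_comap, LinearMap.toAddMonoidHom_coe, Submodule.mkQ_apply]
  constructor
  · rintro ⟨_, ⟨y, rfl⟩, z, hz, rfl⟩
    refine ⟨Submodule.Quotient.mk y, ?_⟩
    rw [Submodule.Quotient.mk_add, (Submodule.Quotient.mk_eq_zero T).2 hz, add_zero]
    rfl
  · rintro ⟨y, hy⟩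
    obtain ⟨y, rfl⟩ := T.mkQ_surjective y
    refine ⟨_, ⟨y, rfl⟩, x - 2 • y, ?_, by abel⟩
    have : T.mkQ (x - 2 • y) = 0 := by
      rw [map_sub, map_nsmul, hy]; simp
    exact (Submodule.Quotient.mk_eq_zero T).1 this

end Pool.Agent.LocInv
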