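import Mathlib
import Pool.Agent.Lib.MP_02f36d_nt.LI.Curve

set_option autoImplicit false

/-! Two-descent on the curves `y ^ 2 = x ^ 3 - N ^ 2 * x`. -/

namespace Pool.Agent.LocInv

open WeierstrassCurve WeierstrassCurve.Affine WeierstrassCurve.Affine.Point
open scoped NumberTheorySymbols

/-- The descent map at the root `e`. -/
def al (N e : ℚ) : G N → ℚ
  | 0 => 1
  | .some x _ _ => if x = e then 3 * e ^ 2 - N ^ 2 else x - e

lemma al_zero (N e : ℚ) : al N e 0 = 1 := rfl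

lemma al_some {N x y : ℚ} (e : ℚ) (h : (cn N).toAffine.Nonsingular x y) :
    al N e (.some x y h) = if x = e then 3 * e ^ 2 - N ^ 2 else x - e := rfl

lemma al_ne {N e : ℚ} (he : 3 * e ^ 2 - N ^ 2 ≠ 0) (P : G N) : al N e P ≠ 0 := by
  match P with
  | 0 => exact one_ne_zero
  | .some x y h =>
    rw [al_some]
    split_ifs with hx
    · exact he
    · exact sub_ne_zero.2 hx

lemma al_add {N e : ℚ} (h0 : e ^ 3 - N ^ 2 * e = 0) (he : 3 * e ^ 2 - N ^ 2 ≠ 0) (P Q : G N) :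
    IsSquare (al N e (P + Q) * al N e P * al N e Q) := by
  match P, Q with
  | 0, Q => exact ⟨al N e Q, by rw [zero_add, al_zero, mul_one]⟩
  | .some x y h, 0 => exact ⟨al N e (.some x y h), by rw [add_zero, al_zero, mul_one]⟩
  | .some x₁ y₁ h₁, .some x₂ y₂ h₂ =>
    by_cases hxy : x₁ = x₂ ∧ y₁ = -y₂
    · rw [add_of_Y_eq hxy.1 (by rw [negY_cn]; exact hxy.2), al_zero, one_mul, al_some, al_some,
        hxy.1]
      exact ⟨_, rfl⟩
    · obtain ⟨l, x₃, y₃, h₃, a1, a2, a3, a4⟩ := add_struct h₁ h₂ hxy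
      have e1 := eqn h₁
      have e2 := eqn h₂
      have k1 : (x₁ - e) * (x₂ - e) * (x₃ - e) = (l * (e - x₁) + y₁) ^ 2 := by
        rw [a2]
        linear_combination (e - x₁) * a4 - e1 - h0
      have k2 : (x₁ - e) * (x₂ - e) + (x₁ - e) * (x₃ - e) + (x₂ - e) * (x₃ - e) =
          3 * e ^ 2 - N ^ 2 - 2 * l * (l * (e - x₁) + y₁) := by
        rw [a2]
        linear_combination (-1) * a4
      rw [a1, al_some, al_some, al_some]
      by_cases hz : l * (e - x₁) + y₁ = 0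
      · rw [hz] at k1 k2
        have two : ∀ a b c : ℚ, a * b + a * c + b * c = 3 * e ^ 2 - N ^ 2 → a = 0 → b ≠ 0 := by
          intro a b c h ha hb
          apply he
          rw [← h, ha, hb]; ring
        by_cases c1 : x₁ = e
        · have c2 : x₂ ≠ e := sub_ne_zero.1
            (two (x₁ - e) (x₂ - e) (x₃ - e) (by linarith) (sub_eq_zero.2 c1))
          have c3 : x₃ ≠ e := sub_ne_zero.1
            (two (x₁ - e) (x₃ - e) (x₂ - e) (by linarith) (sub_eq_zero.2 c1))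
          rw [if_pos c1, if_neg c2, if_neg c3]
          refine ⟨3 * e ^ 2 - N ^ 2, ?_⟩
          rw [c1] at k2
          linear_combination (3 * e ^ 2 - N ^ 2) * k2
        by_cases c2 : x₂ = e
        · have c3 : x₃ ≠ e := sub_ne_zero.1
            (two (x₂ - e) (x₃ - e) (x₁ - e) (by linarith) (sub_eq_zero.2 c2))
          rw [if_neg c1, if_pos c2, if_neg c3]
          refine ⟨3 * e ^ 2 - N ^ 2, ?_⟩
          rw [c2] at k2
          linear_combination (3 * e ^ 2 - N ^ 2) * k2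
        have c3 : x₃ = e := by
          by_contra c3
          exact mul_ne_zero (mul_ne_zero (sub_ne_zero.2 c1) (sub_ne_zero.2 c2))
            (sub_ne_zero.2 c3) (by rw [k1]; ring)
        rw [if_neg c1, if_neg c2, if_pos c3]
        refine ⟨3 * e ^ 2 - N ^ 2, ?_⟩
        rw [c3] at k2
        linear_combination (3 * e ^ 2 - N ^ 2) * k2
      · have k3 : (x₁ - e) * (x₂ - e) * (x₃ - e) ≠ 0 := by rw [k1]; exact pow_ne_zero 2 hz
        have c1 : x₁ ≠ e := sub_ne_zero.1 (left_ne_zero_of_mul (left_ne_zero_of_mul k3))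
        have c2 : x₂ ≠ e := sub_ne_zero.1 (right_ne_zero_of_mul (left_ne_zero_of_mul k3))
        have c3 : x₃ ≠ e := sub_ne_zero.1 (right_ne_zero_of_mul k3)
        rw [if_neg c1, if_neg c2, if_neg c3]
        exact ⟨l * (e - x₁) + y₁, by linear_combination k1⟩

lemma sq_trans {a b c u v : ℚ} (hb : b ≠ 0) (hc : c ≠ 0) (h : IsSquare (a * b * c))
    (h1 : IsSquare (b * u)) (h2 : IsSquare (c * v)) : IsSquare (a * (u * v)) := by
  obtain ⟨r, hr⟩ := h
  obtain ⟨s, hs⟩ := h1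
  obtain ⟨t, ht⟩ := h2
  refine ⟨r * s * t / (b * c), ?_⟩
  field_simp
  linear_combination (b * u * (c * v)) * hr + (r * r * (c * v)) * hs + (r * r * (s * s)) * ht

/-- The descent class of `P` is `(b, c)`. -/
def Has (N : ℚ) (P : G N) (b c : ℚ) : Prop :=
  IsSquare (al N 0 P * b) ∧ IsSquare (al N N P * c)

lemma ne0 {N : ℚ} (hN : N ≠ 0) : 3 * (0 : ℚ) ^ 2 - N ^ 2 ≠ 0 := by
  simpa using hN

lemma neN {N : ℚ} (hN : N ≠ 0) : 3 * N ^ 2 - N ^ 2 ≠ 0 := by
  have : 3 * N ^ 2 - N ^ 2 = 2 * N ^ 2 := by ring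
  rw [this]; positivity

lemma Has.add {N : ℚ} (hN : N ≠ 0) {P Q : G N} {b c u v : ℚ} (h1 : Has N P b c)
    (h2 : Has N Q u v) : Has N (P + Q) (b * u) (c * v) :=
  ⟨sq_trans (al_ne (ne0 hN) P) (al_ne (ne0 hN) Q) (al_add (by ring) (ne0 hN) P Q) h1.1 h2.1,
    sq_trans (al_ne (neN hN) P) (al_ne (neN hN) Q) (al_add (by ring) (neN hN) P Q) h1.2 h2.2⟩

lemma has_self (N : ℚ) (P : G N) : Has N P (al N 0 P) (al N N P) := ⟨⟨_, rfl⟩, ⟨_, rfl⟩⟩

lemma Has.sq {N : ℚ} {P : G N} {b c : ℚ} (hb : b ≠ 0) (hc : c ≠ 0) (h : Has N P (b * b) (c * c)) :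
    Has N P 1 1 := by
  obtain ⟨⟨r, hr⟩, ⟨s, hs⟩⟩ := h
  exact ⟨⟨r / b, by field_simp; linear_combination hr⟩, ⟨s / c, by field_simp; linear_combination hs⟩⟩

lemma Has.uniq {N : ℚ} (hN : N ≠ 0) {P : G N} {b c u v : ℚ} (h1 : Has N P b c)
    (h2 : Has N P u v) : IsSquare (b * u) ∧ IsSquare (c * v) := by
  constructor
  · simpa using sq_trans (a := 1) (al_ne (ne0 hN) P) (al_ne (ne0 hN) P) ⟨_, by rw [one_mul]⟩
      h1.1 h2.1
  · simpa using sq_trans (a := 1) (al_ne (neN hN) P) (al_ne (neN hN) P) ⟨_, by rw [one_mul]⟩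
      h1.2 h2.2

lemma has_double {N : ℚ} (hN : N ≠ 0) (P : G N) : Has N (P + P) 1 1 :=
  ((has_self N P).add hN (has_self N P)).sq (al_ne (ne0 hN) P) (al_ne (neN hN) P)

lemma not_sq_two {N : ℚ} (hN : N ≠ 0) : ¬ IsSquare (2 * N ^ 2) := by
  rintro ⟨r, hr⟩
  have h : IsSquare ((2 : ℕ) : ℚ) := ⟨r / N, by field_simp; push_cast; linear_combination hr⟩
  rw [Rat.isSquare_natCast_iff] at h
  exact Nat.prime_two.prime.not_isSquare h

lemma y_ne_zero {N x y : ℚ} (hN : N ≠ 0) (h : (cn N).toAffine.Nonsingular x y)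
    (H : Has N (.some x y h) 1 1) : x ≠ 0 ∧ x ≠ N ∧ y ≠ 0 := by
  obtain ⟨h1, h2⟩ := H
  rw [al_some, mul_one] at h1 h2
  have c1 : x ≠ 0 := by
    intro c
    rw [if_pos c] at h1
    have := h1.nonneg
    have := pow_pos (abs_pos.2 hN) 2
    rw [sq_abs] at this
    linarith
  have c2 : x ≠ N := by
    intro c
    rw [if_pos c] at h2
    apply not_sq_two hN
    convert h2 using 1
    ring
  refine ⟨c1, c2, fun hy => ?_⟩
  rw [if_neg c1] at h1
  rw [if_neg c2] at h2
  have e := eqn h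
  have c3 : x = -N := by
    have : x * (x - N) * (x + N) = 0 := by rw [hy] at e; linear_combination -e
    have := (mul_eq_zero.1 this).resolve_left (mul_ne_zero c1 (sub_ne_zero.2 c2))
    linarith
  apply not_sq_two hN
  have h3 := h1.mul h2
  rwa [show (x - 0) * (x - N) = 2 * N ^ 2 by rw [c3]; ring] at h3

lemma half {N : ℚ} (hN : N ≠ 0) {P : G N} (H : Has N P 1 1) : ∃ Q, Q + Q = P := by
  match P, H with
  | 0, _ => exact ⟨0, add_zero _⟩
  | .some x y h, H =>
    obtain ⟨c1, c2, c3⟩ := y_ne_zero hN h H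
    obtain ⟨⟨r, hr⟩, ⟨s, hs⟩⟩ := H
    rw [al_some, mul_one, if_neg c1, sub_zero] at hr
    rw [al_some, mul_one, if_neg c2] at hs
    have e := eqn h
    have hr0 : r ≠ 0 := by rintro rfl; exact c1 (by simpa using hr)
    have hs0 : s ≠ 0 := by rintro rfl; exact c2 (by linarith)
    obtain ⟨t, ht⟩ : ∃ t, x + N = t * t := by
      refine ⟨y / (r * s), ?_⟩
      field_simp
      have : r ^ 2 * s ^ 2 = x * (x - N) := by rw [hs]; nth_rewrite 1 [hr]; ring
      linear_combination (x + N) * this - e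
    have n1 : r + s ≠ 0 := by
      intro h0
      apply hN
      linear_combination hr - hs + (r - s) * h0
    have n2 : r + t ≠ 0 := by
      intro h0
      apply hN
      linear_combination ht - hr + (t - r) * h0
    have n3 : s + t ≠ 0 := by
      intro h0
      apply hN
      linear_combination (1 / 2) * ht - (1 / 2) * hs + (1 / 2) * (t - s) * h0
    have u1 : x + r * s + r * t + s * t = (r + s) * (r + t) := by linear_combination hr
    have u2 : x + r * s + r * t + s * t - N = (r + s) * (s + t) := by linear_combination hs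
    have u3 : x + r * s + r * t + s * t + N = (r + t) * (s + t) := by linear_combination ht
    set X := x + r * s + r * t + s * t with hX
    set Y := (r + s) * (r + t) * (s + t) with hY
    have hY0 : Y ≠ 0 := mul_ne_zero (mul_ne_zero n1 n2) n3
    have eQ : Y ^ 2 = X ^ 3 - N ^ 2 * X := by
      have : X ^ 3 - N ^ 2 * X = X * (X - N) * (X + N) := by ring
      rw [this, u2, u3]
      nth_rewrite 1 [u1]
      rw [hY]; ring
    have hQ := mkNS hN eQ
    obtain ⟨l, x₃, y₃, h₃, a1, a2, -, a4⟩ := add_struct hQ hQ (fun hh => hY0 (by linarith [hh.2]))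
    have a5 : 3 * X ^ 2 - N ^ 2 = Y * (2 * (r + s + t)) := by
      have : 3 * X ^ 2 - N ^ 2 = X * (X - N) + X * (X + N) + (X - N) * (X + N) := by ring
      rw [this, u2, u3, u1, hY]; ring
    have a6 : l = r + s + t := by
      apply mul_left_cancel₀ (mul_ne_zero two_ne_zero hY0)
      linear_combination a5 - a4
    have a7 : x₃ = x := by
      rw [a2, a6, hX]
      linear_combination -hr - hs - ht
    rcases (X_eq_iff (h₁ := h₃) (h₂ := h)).1 a7 with h4 | h4
    · exact ⟨_, a1.trans h4⟩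
    · exact ⟨-.some X Y hQ, by rw [← neg_add, a1, h4, neg_neg]⟩

lemma two_tors {N : ℚ} (hN : N ≠ 0) {P : G N} (h2 : P + P = 0) (H : Has N P 1 1) : P = 0 := by
  match P, h2, H with
  | 0, _, _ => rfl
  | .some x y h, h2, H =>
    obtain ⟨-, -, c3⟩ := y_ne_zero hN h H
    obtain ⟨l, x₃, y₃, h₃, a1, -⟩ := add_struct h h (fun hh => c3 (by linarith [hh.2]))
    rw [a1] at h2
    exact absurd h2 (some_ne_zero _)

/-- The subgroup generated by doubles and torsion. -/
abbrev HH (N : ℚ) : AddSubgroup (G N) :=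
  (nsmulAddMonoidHom (α := G N) 2).range ⊔ AddCommGroup.torsion (G N)

lemma mem_HH {N : ℚ} (hN : N ≠ 0) (P : G N) :
    P ∈ HH N ↔ ∃ t, t + t = 0 ∧ Has N (P + t) 1 1 := by
  constructor
  · intro hP
    obtain ⟨_, ⟨Q, rfl⟩, z, hz, rfl⟩ := AddSubgroup.mem_sup.1 hP
    obtain ⟨n, hn, hnz⟩ := isOfFinAddOrder_iff_nsmul_eq_zero.1 hz
    obtain ⟨k, m, ⟨j, rfl⟩, rfl⟩ := Nat.exists_eq_two_pow_mul_odd hn.ne'
    have key : ∀ (k : ℕ) (t : G N), 2 ^ k • t = 0 → t + t = 0 := by
      intro k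
      induction k with
      | zero => intro t h; simp at h; simp [h]
      | succ k ih =>
        intro t h
        have h1 : (t + t) + (t + t) = 0 := ih (t + t) (by rw [← two_nsmul, ← mul_nsmul', ← h, pow_succ])
        exact two_tors hN h1 (has_double hN t)
    refine ⟨(2 * j + 1) • z, key k _ (by rw [← mul_nsmul', hnz]), ?_⟩
    have : nsmulAddMonoidHom 2 Q + z + (2 * j + 1) • z = (Q + (j + 1) • z) + (Q + (j + 1) • z) := by
      rw [nsmulAddMonoidHom_apply]
      module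
    rw [this]
    exact has_double hN _
  · rintro ⟨t, ht, H⟩
    obtain ⟨Q, hQ⟩ := half hN H
    refine AddSubgroup.mem_sup.2 ⟨_, ⟨Q, rfl⟩, -t, ?_, ?_⟩
    · exact neg_mem (isOfFinAddOrder_iff_nsmul_eq_zero.2 ⟨2, two_pos, by rw [two_nsmul, ht]⟩)
    · rw [nsmulAddMonoidHom_apply, two_nsmul, hQ]; abel

end Pool.Agent.LocInv
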