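import Mathlib
import Pool.Agent.Lib.MP_02f36d_nt.LI.Desc

set_option autoImplicit false

/-! Local conditions on descent classes. -/

namespace Pool.Agent.LocInv

open WeierstrassCurve WeierstrassCurve.Affine WeierstrassCurve.Affine.Point
open scoped NumberTheorySymbols

lemma even_val_sq {r : ℕ} [Fact r.Prime] {u : ℚ} (h : IsSquare u) : Even (padicValRat r u) := by
  obtain ⟨s, rfl⟩ := h
  rw [← sq, padicValRat.pow]
  simp

lemma val_even {r : ℕ} [Fact r.Prime] {u a b y : ℚ} (hy : y ≠ 0) (ha : a ≠ 0) (hb : b ≠ 0)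
    (va : padicValRat r a = 0) (vb : padicValRat r b = 0) (h : y ^ 2 = u * (u + a) * (u + b)) :
    Even (padicValRat r u) := by
  have h0 : u * (u + a) * (u + b) ≠ 0 := h ▸ pow_ne_zero 2 hy
  have hu := left_ne_zero_of_mul (left_ne_zero_of_mul h0)
  have h1 := right_ne_zero_of_mul (left_ne_zero_of_mul h0)
  have h2 := right_ne_zero_of_mul h0
  have h3 := congrArg (padicValRat r) h
  rw [padicValRat.pow, padicValRat.mul (left_ne_zero_of_mul h0) h2, padicValRat.mul hu h1] at h3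
  by_cases hv : padicValRat r u = 0
  · simp [hv]
  rw [padicValRat.add_eq_min h1 hu ha (by rwa [va]), padicValRat.add_eq_min h2 hu hb (by rwa [vb]),
    va, vb] at h3
  rw [Int.even_iff]
  push_cast at h3
  omega

lemma rep {u : ℚ} (hu : 0 < u) {N : ℕ} (hN : N ≠ 0)
    (h : ∀ (r : ℕ) [Fact r.Prime], ¬ r ∣ N → Even (padicValRat r u)) :
    ∃ d : ℕ, d ∣ N ∧ IsSquare (u * d) := by
  obtain ⟨s, b, hsb, hsq⟩ := Nat.sq_mul_squarefree (u.num.natAbs * u.den)
  have hs : IsSquare (u * s) := by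
    refine ⟨b * s / u.den, ?_⟩
    have h1 : ((b : ℚ) ^ 2 * s) = u.num * u.den := by
      have h2 : (u.num.natAbs : ℤ) = u.num := Int.natAbs_of_nonneg (Rat.num_pos.2 hu).le
      have h3 : ((b ^ 2 * s : ℕ) : ℤ) = u.num * u.den := by rw [hsb]; push_cast; rw [← h2]; simp
      exact_mod_cast h3
    have h4 : u * u.den = u.num := Rat.mul_den_eq_num u
    have h5 : (u.den : ℚ) ≠ 0 := by exact_mod_cast u.den_nz
    field_simp
    linear_combination (s * u.den) * h4 - s * h1
  refine ⟨s, ?_, hs⟩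
  rw [← Nat.prod_primeFactors_of_squarefree hsq]
  refine (Finset.prod_dvd_prod_of_subset _ _ _ ?_).trans (Nat.prod_primeFactors_dvd N)
  intro r hr
  have hp := Nat.prime_of_mem_primeFactors hr
  have := Fact.mk hp
  refine Nat.mem_primeFactors.2 ⟨hp, ?_, hN⟩
  by_contra hd
  have h1 := even_val_sq (r := r) hs
  have h2 : padicValNat r s = 1 := by
    rw [← Nat.factorization_def _ hp]
    exact Nat.factorization_eq_one_of_squarefree hsq hp (Nat.dvd_of_mem_primeFactors hr)
  rw [padicValRat.mul hu.ne' (by exact_mod_cast hsq.ne_zero), padicValRat.of_nat, h2] at h1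
  have h3 := h r hd
  rw [Int.even_iff] at h1 h3
  omega

lemma loc_int {q : ℕ} (hq : q.Prime) {A B C : ℤ} (hA : ¬ (q : ℤ) ∣ A) (hB : ¬ (q : ℤ) ∣ B)
    (hC : ¬ (q : ℤ) ∣ C) : ∀ (n : ℕ) (S T W : ℤ), W.natAbs = n → W ≠ 0 →
      A * S ^ 2 + B * T ^ 2 = q * C * W ^ 2 → J(-(A * B) | q) = 1 := by
  have hp : Prime (q : ℤ) := Nat.prime_iff_prime_int.1 hq
  intro n
  induction n using Nat.strong_induction_on with
  | _ n ih =>
  intro S T W hn hW h
  by_cases hT : (q : ℤ) ∣ T
  · obtain ⟨T, rfl⟩ := hT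
    have h1 : (q : ℤ) ∣ A * S ^ 2 := ⟨C * W ^ 2 - B * q * T ^ 2, by linear_combination h⟩
    obtain ⟨S, rfl⟩ := hp.dvd_of_dvd_pow ((hp.dvd_or_dvd h1).resolve_left hA)
    have h2 : (q : ℤ) ∣ C * W ^ 2 := ⟨A * S ^ 2 + B * T ^ 2,
      mul_left_cancel₀ hp.ne_zero (by linear_combination -h)⟩
    obtain ⟨W, rfl⟩ := hp.dvd_of_dvd_pow ((hp.dvd_or_dvd h2).resolve_left hC)
    have hW0 : W ≠ 0 := right_ne_zero_of_mul hW
    refine ih W.natAbs ?_ S T W rfl hW0
      (mul_left_cancel₀ (pow_ne_zero 2 hp.ne_zero) (by linear_combination h))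
    rw [← hn, Int.natAbs_mul, Int.natAbs_natCast]
    have := hq.two_le
    have := Int.natAbs_pos.2 hW0
    nlinarith
  · have h1 : J(-(A * B) * S ^ 2 | q) = J((B * T) ^ 2 | q) := by
      apply jacobiSym.mod_left'
      exact Int.ModEq.symm (Int.modEq_iff_dvd.2 ⟨-B * C * W ^ 2, by linear_combination (-B) * h⟩)
    have cop : ∀ z : ℤ, ¬ (q : ℤ) ∣ z → z.gcd q = 1 := fun z hz =>
      Int.isCoprime_iff_gcd_eq_one.1 ((hp.coprime_iff_not_dvd.2 hz).symm)
    have hS : ¬ (q : ℤ) ∣ S := by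
      rintro ⟨S, rfl⟩
      have h2 : (q : ℤ) ∣ B * T ^ 2 := ⟨C * W ^ 2 - A * q * S ^ 2, by linear_combination h⟩
      exact hT (hp.dvd_of_dvd_pow ((hp.dvd_or_dvd h2).resolve_left hB))
    rw [jacobiSym.mul_left, jacobiSym.sq_one' (cop S hS), mul_one,
      jacobiSym.sq_one' (cop _ (fun h3 => (hp.dvd_or_dvd h3).elim hB hT))] at h1
    exact h1

lemma loc {q : ℕ} (hq : q.Prime) {A B C : ℤ} (hd : ¬ (q : ℤ) ∣ A * B * C) {s t w : ℚ}
    (hw : w ≠ 0) (h : A * s ^ 2 + B * t ^ 2 = q * C * w ^ 2) : J(-(A * B) | q) = 1 := by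
  refine loc_int hq (C := C) (fun h => hd ((h.mul_right _).mul_right _))
    (fun h => hd ((h.mul_left _).mul_right _)) (fun h => hd (h.mul_left _)) _
    (s.num * t.den * w.den) (t.num * s.den * w.den) (w.num * s.den * t.den) rfl
    (mul_ne_zero (mul_ne_zero (Rat.num_ne_zero.2 hw) (by exact_mod_cast s.den_nz))
      (by exact_mod_cast t.den_nz)) ?_
  apply Int.cast_injective (α := ℚ)
  push_cast
  rw [← Rat.mul_den_eq_num s, ← Rat.mul_den_eq_num t, ← Rat.mul_den_eq_num w]
  linear_combination ((s.den : ℚ) * t.den * w.den) ^ 2 * h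

/-- The local conditions at the primes dividing `A * B * C * D`. -/
def Cond (A B C D q : ℕ) : Prop :=
  (q ∣ A → J(-((B : ℤ) * D) | q) = 1 ∧ J(-((B : ℤ) * C) | q) = 1) ∧
  (q ∣ B → J((A : ℤ) * D | q) = 1 ∧ J(2 * (A : ℤ) * C | q) = 1) ∧
  (q ∣ C → J(-((A : ℤ) * D) | q) = 1 ∧ J(2 * (A : ℤ) * B | q) = 1) ∧
  (q ∣ D → J((A : ℤ) * B | q) = 1 ∧ J((A : ℤ) * C | q) = 1)

lemma conds {A B C D : ℕ} (hsq : Squarefree (2 * (A * B * C * D))) {x y : ℚ} (hy : y ≠ 0)
    (e : y ^ 2 = x ^ 3 - ((A * B * C * D : ℕ) : ℚ) ^ 2 * x)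
    (h1 : IsSquare (x * (B * C : ℕ))) (h2 : IsSquare ((x - (A * B * C * D : ℕ)) * (A * C : ℕ)))
    {q : ℕ} (hq : q.Prime) : Cond A B C D q := by
  have h0 := right_ne_zero_of_mul hsq.ne_zero
  have hA : (A : ℚ) ≠ 0 := by
    exact_mod_cast left_ne_zero_of_mul (left_ne_zero_of_mul (left_ne_zero_of_mul h0))
  have hB : (B : ℚ) ≠ 0 := by
    exact_mod_cast right_ne_zero_of_mul (left_ne_zero_of_mul (left_ne_zero_of_mul h0))
  have hC : (C : ℚ) ≠ 0 := by exact_mod_cast right_ne_zero_of_mul (left_ne_zero_of_mul h0)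
  push_cast at e h1 h2
  obtain ⟨s, hs⟩ := h1
  obtain ⟨t, ht⟩ := h2
  obtain ⟨u, hu⟩ : ∃ u : ℚ, x = B * C * u ^ 2 := ⟨s / (B * C), by field_simp; linear_combination hs⟩
  obtain ⟨v, hv⟩ : ∃ v : ℚ, x - A * B * C * D = A * C * v ^ 2 :=
    ⟨t / (A * C), by field_simp; linear_combination ht⟩
  have e2 : y ^ 2 = (B * C * u ^ 2) * (A * C * v ^ 2) * (x + A * B * C * D) := by
    rw [← hu, ← hv, e]; ring
  have hu0 : u ≠ 0 := by rintro rfl; exact hy (by simpa using e2)
  have hv0 : v ≠ 0 := by rintro rfl; exact hy (by simpa using e2)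
  obtain ⟨w, hw⟩ : ∃ w : ℚ, x + A * B * C * D = A * B * w ^ 2 :=
    ⟨y / (A * B * C * u * v), by field_simp; linear_combination -e2⟩
  have hw0 : w ≠ 0 := by rintro rfl; rw [hw] at e2; exact hy (by simpa using e2)
  have r1 : B * u ^ 2 - A * v ^ 2 = A * B * D :=
    mul_left_cancel₀ hC (by linear_combination hv - hu)
  have r2 : A * w ^ 2 - C * u ^ 2 = A * C * D :=
    mul_left_cancel₀ hB (by linear_combination hu - hw)
  have r4 : A * C * v ^ 2 + A * B * w ^ 2 = 2 * B * C * u ^ 2 := by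
    linear_combination 2 * hu - hv - hw
  have nd : ∀ (M : ℕ) (z : ℤ), 2 * (A * B * C * D) = q * M → z ∣ (M : ℤ) ^ 2 → ¬ (q : ℤ) ∣ z := by
    intro M z hM hz hqz
    have h3 : q ∣ M := hq.dvd_of_dvd_pow (by exact_mod_cast hqz.trans hz)
    rw [hM] at hsq
    exact hq.not_isUnit (hsq q (Nat.mul_dvd_mul_left _ h3))
  refine ⟨?_, ?_, ?_, ?_⟩
  · rintro ⟨a, rfl⟩
    have hM : 2 * (q * a * B * C * D) = q * (2 * a * B * C * D) := by ring
    push_cast at *
    have z1 := left_ne_zero_of_mul hA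
    have z2 := right_ne_zero_of_mul hA
    constructor
    · have := loc hq (A := 1) (B := B * D) (C := B * a) (s := v) (t := 1) (w := u / (q * a))
        (nd _ _ hM ⟨4 * a * C ^ 2 * D, by push_cast; ring⟩) (div_ne_zero hu0 hA)
        (by push_cast; field_simp; linear_combination -r1)
      simpa using this
    · have := loc hq (A := C) (B := B) (C := 2 * B * C * a) (s := v) (t := w) (w := u / (q * a))
        (nd _ _ hM ⟨2 * a * D ^ 2, by push_cast; ring⟩) (div_ne_zero hu0 hA)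
        (by push_cast; field_simp; linear_combination r4)
      rwa [mul_comm] at this
  · rintro ⟨b, rfl⟩
    have hM : 2 * (A * (q * b) * C * D) = q * (2 * A * b * C * D) := by ring
    push_cast at *
    have z1 := left_ne_zero_of_mul hB
    have z2 := right_ne_zero_of_mul hB
    constructor
    · have := loc hq (A := 1) (B := -(A * D)) (C := A * b) (s := u) (t := 1) (w := v / (q * b))
        (nd _ _ hM ⟨-4 * b * C ^ 2 * D, by push_cast; ring⟩) (div_ne_zero hv0 hB)
        (by push_cast; field_simp; linear_combination r1)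
      simpa using this
    · have := loc hq (A := 2 * C) (B := -A) (C := A * C * b) (s := u) (t := w) (w := v / (q * b))
        (nd _ _ hM ⟨-2 * b * D ^ 2, by push_cast; ring⟩) (div_ne_zero hv0 hB)
        (by push_cast; field_simp; linear_combination -r4)
      rwa [show -(2 * (C : ℤ) * -A) = 2 * A * C by ring] at this
  · rintro ⟨c, rfl⟩
    have hM : 2 * (A * B * (q * c) * D) = q * (2 * A * B * c * D) := by ring
    push_cast at *
    have z1 := left_ne_zero_of_mul hC
    have z2 := right_ne_zero_of_mul hC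
    constructor
    · have := loc hq (A := 1) (B := A * D) (C := A * c) (s := u) (t := 1) (w := w / (q * c))
        (nd _ _ hM ⟨4 * c * B ^ 2 * D, by push_cast; ring⟩) (div_ne_zero hw0 hC)
        (by push_cast; field_simp; linear_combination -r2)
      simpa using this
    · have := loc hq (A := 2 * B) (B := -A) (C := A * B * c) (s := u) (t := v) (w := w / (q * c))
        (nd _ _ hM ⟨-2 * c * D ^ 2, by push_cast; ring⟩) (div_ne_zero hw0 hC)
        (by push_cast; field_simp; linear_combination -r4)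
      rwa [show -(2 * (B : ℤ) * -A) = 2 * A * B by ring] at this
  · rintro ⟨d, rfl⟩
    have hM : 2 * (A * B * C * (q * d)) = q * (2 * A * B * C * d) := by ring
    push_cast at *
    constructor
    · have := loc hq (A := B) (B := -A) (C := A * B * d) (s := u) (t := v) (w := 1)
        (nd _ _ hM ⟨-4 * C ^ 2 * d, by push_cast; ring⟩) one_ne_zero
        (by push_cast; linear_combination r1)
      rwa [show -((B : ℤ) * -A) = A * B by ring] at this
    · have := loc hq (A := A) (B := -C) (C := A * C * d) (s := w) (t := u) (w := 1)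
        (nd _ _ hM ⟨-4 * B ^ 2 * d, by push_cast; ring⟩) one_ne_zero
        (by push_cast; linear_combination r2)
      rwa [show -((A : ℤ) * -C) = A * C by ring] at this

lemma normalize {N : ℕ} (hN : Odd N) (P : G N) : ∃ t : G N, t + t = 0 ∧
    0 < al N 0 (P + t) ∧ Even (padicValRat 2 (al N N (P + t))) := by
  have hN0 : (N : ℚ) ≠ 0 := by exact_mod_cast hN.pos.ne'
  have hNp : (0 : ℚ) < N := by exact_mod_cast hN.pos
  have vN : padicValRat 2 (N : ℚ) = 0 := by
    rw [padicValRat.of_nat, padicValNat.eq_zero_of_not_dvd hN.not_two_dvd_nat]; rfl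
  have s0 : (cn (N : ℚ)).toAffine.Nonsingular 0 0 := mkNS hN0 (by ring)
  have s1 : (cn (N : ℚ)).toAffine.Nonsingular N 0 := mkNS hN0 (by ring)
  have t0 : (.some 0 0 s0 : G N) + .some 0 0 s0 = 0 := add_self_of_Y_eq (by rw [negY_cn]; simp)
  have t1 : (.some N 0 s1 : G N) + .some N 0 s1 = 0 := add_self_of_Y_eq (by rw [negY_cn]; simp)
  obtain ⟨t, ht, hpos⟩ : ∃ t : G N, t + t = 0 ∧ 0 < al N 0 (P + t) := by
    rcases lt_or_gt_of_ne (al_ne (ne0 hN0) P) with h | h
    · refine ⟨_, t0, ?_⟩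
      have h1 := (al_add (by ring) (ne0 hN0) P (.some 0 0 s0)).nonneg
      rw [al_some, if_pos rfl] at h1
      refine lt_of_le_of_ne ?_ (al_ne (ne0 hN0) _).symm
      by_contra h2
      have h3 := mul_pos_of_neg_of_neg (not_le.1 h2) h
      nlinarith [mul_pos h3 (pow_pos hNp 2)]
    · exact ⟨0, add_zero _, by rwa [add_zero]⟩
  by_cases hev : Even (padicValRat 2 (al N N (P + t)))
  · exact ⟨t, ht, hpos, hev⟩
  refine ⟨t + .some N 0 s1, by rw [add_add_add_comm, ht, t1, add_zero], ?_, ?_⟩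
  · have h1 := (al_add (by ring) (ne0 hN0) (P + t) (.some N 0 s1)).nonneg
    rw [al_some, if_neg hN0, sub_zero] at h1
    rw [← add_assoc]
    refine lt_of_le_of_ne ?_ (al_ne (ne0 hN0) _).symm
    by_contra h2
    nlinarith [mul_pos (mul_pos (neg_pos.2 (not_le.1 h2)) hpos) hNp]
  · have h1 := even_val_sq (r := 2) (al_add (by ring) (neN hN0) (P + t) (.some N 0 s1))
    rw [al_some, if_pos rfl, show 3 * (N : ℚ) ^ 2 - N ^ 2 = (2 : ℕ) * N ^ 2 by push_cast; ring,
      padicValRat.mul (mul_ne_zero (al_ne (neN hN0) _) (al_ne (neN hN0) _)) (by positivity),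
      padicValRat.mul (al_ne (neN hN0) _) (al_ne (neN hN0) _),
      padicValRat.mul (by norm_num) (by positivity), padicValRat.pow, vN,
      padicValRat.self (by norm_num)] at h1
    rw [← add_assoc]
    rw [Int.even_iff] at *
    omega

lemma sel {N : ℕ} (hsq : Squarefree (2 * N)) (P : G N) : ∃ t : G N, t + t = 0 ∧
    ∃ b c : ℕ, b ∣ N ∧ c ∣ N ∧ Has N (P + t) b c ∧ ((b = 1 ∧ c = 1) ∨
      ∀ A B C D : ℕ, N = A * B * C * D → b = B * C → c = A * C →
        ∀ q : ℕ, q.Prime → Cond A B C D q) := by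
  have hN : Odd N := by
    rw [← Nat.not_even_iff_odd]
    rintro ⟨k, rfl⟩
    exact Nat.prime_two.not_isUnit (hsq 2 ⟨k, by ring⟩)
  have hN0 : (N : ℚ) ≠ 0 := by exact_mod_cast hN.pos.ne'
  have hNp : (0 : ℚ) < N := by exact_mod_cast hN.pos
  obtain ⟨t, ht, h1, h2⟩ := normalize hN P
  refine ⟨t, ht, ?_⟩
  generalize P + t = R at h1 h2
  match R, h1, h2 with
  | 0, _, _ => exact ⟨1, 1, one_dvd _, one_dvd _, ⟨by simp [al_zero], by simp [al_zero]⟩,
      Or.inl ⟨rfl, rfl⟩⟩
  | .some x y h, h1, h2 =>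
    have e := eqn h
    have vN : ∀ (r : ℕ) [Fact r.Prime], ¬ r ∣ N → padicValRat r (N : ℚ) = 0 := by
      intro r _ hr
      rw [padicValRat.of_nat, padicValNat.eq_zero_of_not_dvd hr]; rfl
    rw [al_some] at h1 h2
    have c1 : x ≠ 0 := by
      intro c
      rw [if_pos c] at h1
      nlinarith [sq_nonneg (N : ℚ)]
    have c2 : x ≠ N := by
      intro c
      rw [if_pos c, show 3 * (N : ℚ) ^ 2 - N ^ 2 = (2 : ℕ) * N ^ 2 by push_cast; ring,
        padicValRat.mul (by norm_num) (by positivity), padicValRat.pow,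
        vN 2 hN.not_two_dvd_nat, padicValRat.self (by norm_num)] at h2
      norm_num at h2
    rw [if_neg c1, sub_zero] at h1
    rw [if_neg c2] at h2
    have e2 : y ^ 2 = x * (x + N) * (x - N) := by linear_combination e
    have hy : y ≠ 0 := by
      rintro rfl
      exact mul_ne_zero (show x * (x + N) ≠ 0 by positivity) (sub_ne_zero.2 c2) (by rw [← e2]; simp)
    have h3 : 0 < x - N :=
      (mul_pos_iff_of_pos_left (by positivity)).1 (e2 ▸ (by positivity : 0 < y ^ 2))
    obtain ⟨b, hb, hb2⟩ := rep h1 hN.pos.ne' (fun r _ hr =>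
      val_even (a := N) (b := -N) hy hN0 (neg_ne_zero.2 hN0) (vN r hr)
        (by rw [padicValRat.neg, vN r hr]) (by linear_combination e))
    obtain ⟨c, hc, hc2⟩ := rep h3 hN.pos.ne' (fun r hp hr => by
      by_cases h2r : r = 2
      · subst h2r; exact h2
      · refine val_even (a := N) (b := (2 : ℕ) * N) hy hN0 (by positivity) (vN r hr) ?_
          (by push_cast; linear_combination e)
        rw [padicValRat.mul (by norm_num) hN0, vN r hr, padicValRat.of_nat,
          padicValNat.eq_zero_of_not_dvd]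
        · rfl
        · exact fun h => h2r ((Nat.prime_dvd_prime_iff_eq hp.out Nat.prime_two).1 h))
    refine ⟨b, c, hb, hc, ⟨by rwa [al_some, if_neg c1, sub_zero], by rwa [al_some, if_neg c2]⟩,
      Or.inr ?_⟩
    rintro A B C D rfl rfl rfl q hq
    exact conds hsq hy e hb2 hc2 hq

end Pool.Agent.LocInv
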