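import Mathlib
import Pool.Agent.Lib.MP_02f36d_nt.LI.Sel

set_option autoImplicit false

/-! Ranks of four congruent number curves. -/

namespace Pool.Agent.LocInv

open WeierstrassCurve WeierstrassCurve.Affine WeierstrassCurve.Affine.Point
open scoped NumberTheorySymbols

/-- One of the four numbers is `q` and the others are one. -/
def Slot (q A B C D : ℕ) : Prop :=
  (A = q ∧ B = 1 ∧ C = 1 ∧ D = 1) ∨ (A = 1 ∧ B = q ∧ C = 1 ∧ D = 1) ∨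
    (A = 1 ∧ B = 1 ∧ C = q ∧ D = 1) ∨ (A = 1 ∧ B = 1 ∧ C = 1 ∧ D = q)

lemma slot {q a c : ℕ} (hq : q = 1 ∨ q.Prime) (ha : a ∣ q) (hc : c ∣ q) :
    ∃ A B C D, q = A * B * C * D ∧ a = B * C ∧ c = A * C ∧ Slot q A B C D := by
  have key : ∀ z, z ∣ q → z = 1 ∨ z = q := by
    intro z hz
    rcases hq with rfl | hq
    · exact Or.inl (Nat.dvd_one.1 hz)
    · exact (Nat.dvd_prime hq).1 hz
  rcases key a ha with h1 | h1 <;> rcases key c hc with h2 | h2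
  · exact ⟨1, 1, 1, q, by simp, by simp [h1], by simp [h2], by simp [Slot]⟩
  · exact ⟨q, 1, 1, 1, by simp, by simp [h1], by simp [h2], by simp [Slot]⟩
  · exact ⟨1, q, 1, 1, by simp, by simp [h1], by simp [h2], by simp [Slot]⟩
  · exact ⟨1, 1, q, 1, by simp, by simp [h1], by simp [h2], by simp [Slot]⟩

lemma slot_one {A B C D : ℕ} (h : Slot 1 A B C D) : A = 1 ∧ B = 1 ∧ C = 1 ∧ D = 1 := by
  rcases h with h | h | h | h <;> exact h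

lemma cond_slot {q a b c d A B C D : ℕ} (hA : a ∣ A) (hB : b ∣ B) (hC : c ∣ C) (hD : d ∣ D)
    (u : Slot q a b c d) (h : Cond A B C D q) :
    (a = q ∧ b = 1 ∧ c = 1 ∧ d = 1 ∧
      J(-((B : ℤ) * D) | q) = 1 ∧ J(-((B : ℤ) * C) | q) = 1) ∨
    (a = 1 ∧ b = q ∧ c = 1 ∧ d = 1 ∧ J((A : ℤ) * D | q) = 1 ∧ J(2 * (A : ℤ) * C | q) = 1) ∨
    (a = 1 ∧ b = 1 ∧ c = q ∧ d = 1 ∧
      J(-((A : ℤ) * D) | q) = 1 ∧ J(2 * (A : ℤ) * B | q) = 1) ∨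
    (a = 1 ∧ b = 1 ∧ c = 1 ∧ d = q ∧ J((A : ℤ) * B | q) = 1 ∧ J((A : ℤ) * C | q) = 1) := by
  rcases u with ⟨h1, h2, h3, h4⟩ | ⟨h1, h2, h3, h4⟩ | ⟨h1, h2, h3, h4⟩ | ⟨h1, h2, h3, h4⟩
  · exact Or.inl ⟨h1, h2, h3, h4, h.1 (h1 ▸ hA)⟩
  · exact Or.inr (Or.inl ⟨h1, h2, h3, h4, h.2.1 (h2 ▸ hB)⟩)
  · exact Or.inr (Or.inr (Or.inl ⟨h1, h2, h3, h4, h.2.2.1 (h3 ▸ hC)⟩))
  · exact Or.inr (Or.inr (Or.inr ⟨h1, h2, h3, h4, h.2.2.2 (h4 ▸ hD)⟩))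

lemma sel3 {N q₁ q₂ q₃ : ℕ} (hN : N = q₁ * q₂ * q₃) (h₁ : q₁ = 1 ∨ q₁.Prime)
    (h₂ : q₂ = 1 ∨ q₂.Prime) (h₃ : q₃ = 1 ∨ q₃.Prime) (hsq : Squarefree (2 * N)) (P : G N) :
    ∃ t : G N, t + t = 0 ∧ (Has N (P + t) 1 1 ∨
      ∃ A₁ B₁ C₁ D₁ A₂ B₂ C₂ D₂ A₃ B₃ C₃ D₃ : ℕ, Slot q₁ A₁ B₁ C₁ D₁ ∧ Slot q₂ A₂ B₂ C₂ D₂ ∧
        Slot q₃ A₃ B₃ C₃ D₃ ∧
        Has N (P + t) ((B₁ * C₁ * (B₂ * C₂) * (B₃ * C₃) : ℕ) : ℚ)
          ((A₁ * C₁ * (A₂ * C₂) * (A₃ * C₃) : ℕ) : ℚ) ∧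
        ∀ q : ℕ, q.Prime →
          Cond (A₁ * A₂ * A₃) (B₁ * B₂ * B₃) (C₁ * C₂ * C₃) (D₁ * D₂ * D₃) q) := by
  obtain ⟨t, ht, b, c, hb, hc, H, h⟩ := sel hsq P
  refine ⟨t, ht, ?_⟩
  rcases h with ⟨rfl, rfl⟩ | h
  · exact Or.inl (by simpa using H)
  right
  rw [hN] at hb hc
  obtain ⟨b', b₃, hb', hb₃, rfl⟩ := exists_dvd_and_dvd_of_dvd_mul hb
  obtain ⟨b₁, b₂, hb₁, hb₂, rfl⟩ := exists_dvd_and_dvd_of_dvd_mul hb'
  obtain ⟨c', c₃, hc', hc₃, rfl⟩ := exists_dvd_and_dvd_of_dvd_mul hc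
  obtain ⟨c₁, c₂, hc₁, hc₂, rfl⟩ := exists_dvd_and_dvd_of_dvd_mul hc'
  obtain ⟨A₁, B₁, C₁, D₁, e₁, rfl, rfl, s₁⟩ := slot h₁ hb₁ hc₁
  obtain ⟨A₂, B₂, C₂, D₂, e₂, rfl, rfl, s₂⟩ := slot h₂ hb₂ hc₂
  obtain ⟨A₃, B₃, C₃, D₃, e₃, rfl, rfl, s₃⟩ := slot h₃ hb₃ hc₃
  refine ⟨A₁, B₁, C₁, D₁, A₂, B₂, C₂, D₂, A₃, B₃, C₃, D₃, s₁, s₂, s₃, H,
    h _ _ _ _ ?_ (by ring) (by ring)⟩
  rw [hN]
  nth_rewrite 1 [e₁, e₂, e₃]
  ring

lemma jneg {q : ℕ} (h : q % 4 = 3) (z : ℤ) : J(-z | q) = -J(z | q) := by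
  rw [jacobiSym.neg _ (Nat.odd_iff.2 (by omega)), ZMod.χ₄_nat_three_mod_four h]; ring

/-- The Mordell-Weil rank. -/
noncomputable abbrev rk (N : ℚ) : ℕ := Module.finrank ℤ (G N)

lemma fg_of_cover {N : ℚ} (hN : N ≠ 0) (S : Finset (G N))
    (h : ∀ P : G N, ∃ t, t + t = 0 ∧ ∃ R ∈ S, Has N (P + t + R) 1 1) : AddGroup.FG (G N) := by
  apply fg_of_index hN
  have h2 : {t : G N | t + t = 0}.Finite := by
    have h3 := (Northcott.finite_le (h := ht (N := N)))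
    obtain ⟨C, hC⟩ := ht_par hN
    refine (h3 (ht (0 : G N) + C)).subset fun t ht0 => ?_
    have h4 := hC t t
    have h5 : 0 ≤ ht t := Height.logHeight_nonneg _
    have h6 : 0 ≤ ht (0 : G N) := Height.logHeight_nonneg _
    have h7 : t + t = 0 := ht0
    rw [h7, sub_self, abs_le] at h4
    have h8 : 0 ≤ C := (abs_nonneg _).trans (hC 0 0)
    show ht t ≤ _
    linarith [h4.1]
  have : Finite (G N ⧸ (nsmulAddMonoidHom (α := G N) 2).range) := by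
    rw [← Set.finite_univ_iff]
    refine ((h2.prod S.finite_toSet).image
      (fun z => (QuotientAddGroup.mk (-(z.1 + z.2))))).subset fun z _ => ?_
    obtain ⟨P, rfl⟩ := QuotientAddGroup.mk_surjective z
    obtain ⟨t, ht, R, hR, H⟩ := h P
    obtain ⟨Q, hQ⟩ := half hN H
    refine ⟨(t, R), ⟨ht, hR⟩, QuotientAddGroup.eq.2 ⟨Q, ?_⟩⟩
    rw [nsmulAddMonoidHom_apply, two_nsmul, hQ]
    simp only
    abel
  exact AddSubgroup.finiteIndex_of_finite_quotient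

lemma rk_zero {N : ℚ} (hN : N ≠ 0) (h : ∀ P : G N, ∃ t, t + t = 0 ∧ Has N (P + t) 1 1) :
    rk N = 0 := by
  have h1 := index_eq (fg_of_cover hN {0} (fun P => by simpa using h P))
  have h2 : HH N = ⊤ := by
    rw [eq_top_iff]
    exact fun P _ => (mem_HH hN P).2 (h P)
  rw [show (nsmulAddMonoidHom (α := G N) 2).range ⊔ AddCommGroup.torsion (G N) = HH N from rfl, h2,
    AddSubgroup.index_top] at h1
  exact (Nat.pow_eq_one.1 h1.symm).resolve_left (by norm_num)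

lemma rk_one : rk ((1 : ℕ) : ℚ) = 0 := by
  apply rk_zero (by norm_num)
  intro P
  obtain ⟨t, ht, b, c, hb, hc, H, -⟩ := sel (N := 1) (by simpa using Nat.prime_two.squarefree) P
  rw [Nat.dvd_one.1 hb, Nat.dvd_one.1 hc] at H
  exact ⟨t, ht, by simpa using H⟩

lemma sqf {p : ℕ} (hp : p.Prime) {M : ℕ} (hM : Squarefree (2 * M)) (h : Nat.Coprime (2 * M) p) :
    Squarefree (2 * (M * p)) := by
  rw [← mul_assoc, Nat.squarefree_mul h]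
  exact ⟨hM, hp.squarefree⟩

lemma rk_p {p : ℕ} (hp : p.Prime) (h8 : p % 8 = 3) : rk (p : ℚ) = 0 := by
  apply rk_zero (by exact_mod_cast hp.ne_zero)
  intro P
  have hodd : Odd p := Nat.odd_iff.2 (by omega)
  have hsq : Squarefree (2 * p) := by
    have := sqf hp (M := 1) (by simpa using Nat.prime_two.squarefree) (by simpa using hodd)
    simpa using this
  have j2 : J(2 | p) = -1 := by
    rw [jacobiSym.at_two hodd, ZMod.χ₈_nat_eq_if_mod_eight]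
    rw [if_neg (by omega), if_neg (by omega)]
  have n3 := jneg (q := p) (by omega)
  obtain ⟨t, ht, H | ⟨A₁, B₁, C₁, D₁, A₂, B₂, C₂, D₂, A₃, B₃, C₃, D₃, s₁, s₂, s₃, H, h⟩⟩ :=
    sel3 (N := p) (q₁ := 1) (q₂ := 1) (q₃ := p) (by simp) (Or.inl rfl) (Or.inl rfl) (Or.inr hp)
      hsq P
  · exact ⟨t, ht, H⟩
  refine ⟨t, ht, ?_⟩
  obtain ⟨rfl, rfl, rfl, rfl⟩ := slot_one s₁
  obtain ⟨rfl, rfl, rfl, rfl⟩ := slot_one s₂
  rcases cond_slot (Dvd.intro_left _ rfl) (Dvd.intro_left _ rfl) (Dvd.intro_left _ rfl)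
    (Dvd.intro_left _ rfl) s₃ (h p hp) with
    ⟨a1, a2, a3, a4, a5, a6⟩ | ⟨a1, a2, a3, a4, a5, a6⟩ | ⟨a1, a2, a3, a4, a5, a6⟩ |
      ⟨a1, a2, a3, a4, a5, a6⟩ <;>
    simp only [a1, a2, a3, a4, n3, j2, Nat.cast_mul, Nat.cast_one, mul_one,
      jacobiSym.one_left] at H a5 a6 <;>
    first | exact H | omega

lemma cases3 {a b p : ℕ} (ha : a % 4 = 3) (hb : b % 4 = 3) (hp : p % 4 = 3)
    (a2 : J(2 | a) = 1) (b2 : J(2 | b) = 1) (p2 : J(2 | p) = -1)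
    (ab : J((a : ℤ) | b) = -1) (ba : J((b : ℤ) | a) = 1) (ap : J((a : ℤ) | p) = 1)
    (pa : J((p : ℤ) | a) = -1) (bp : J((b : ℤ) | p) = -1) (pb : J((p : ℤ) | b) = 1)
    {A₁ B₁ C₁ D₁ A₂ B₂ C₂ D₂ A₃ B₃ C₃ D₃ : ℕ} (s₁ : Slot a A₁ B₁ C₁ D₁) (s₂ : Slot b A₂ B₂ C₂ D₂)
    (s₃ : Slot p A₃ B₃ C₃ D₃)
    (h₁ : Cond (A₁ * A₂ * A₃) (B₁ * B₂ * B₃) (C₁ * C₂ * C₃) (D₁ * D₂ * D₃) a)
    (h₂ : Cond (A₁ * A₂ * A₃) (B₁ * B₂ * B₃) (C₁ * C₂ * C₃) (D₁ * D₂ * D₃) b)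
    (h₃ : Cond (A₁ * A₂ * A₃) (B₁ * B₂ * B₃) (C₁ * C₂ * C₃) (D₁ * D₂ * D₃) p) :
    B₁ * C₁ * (B₂ * C₂) * (B₃ * C₃) = 1 ∧ A₁ * C₁ * (A₂ * C₂) * (A₃ * C₃) = 1 := by
  have n1 := jneg ha
  have n2 := jneg hb
  have n3 := jneg hp
  have d1 : ∀ x y z : ℕ, x ∣ x * y * z := fun x y z => ⟨y * z, by ring⟩
  have d2 : ∀ x y z : ℕ, y ∣ x * y * z := fun x y z => ⟨x * z, by ring⟩
  have d3 : ∀ x y z : ℕ, z ∣ x * y * z := fun x y z => ⟨x * y, by ring⟩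
  rcases cond_slot (d1 _ _ _) (d1 _ _ _) (d1 _ _ _) (d1 _ _ _) s₁ h₁ with
    ⟨x1, x2, x3, x4, x5, x6⟩ | ⟨x1, x2, x3, x4, x5, x6⟩ | ⟨x1, x2, x3, x4, x5, x6⟩ |
      ⟨x1, x2, x3, x4, x5, x6⟩ <;>
  rcases cond_slot (d2 _ _ _) (d2 _ _ _) (d2 _ _ _) (d2 _ _ _) s₂ h₂ with
    ⟨y1, y2, y3, y4, y5, y6⟩ | ⟨y1, y2, y3, y4, y5, y6⟩ | ⟨y1, y2, y3, y4, y5, y6⟩ |
      ⟨y1, y2, y3, y4, y5, y6⟩ <;>
  rcases cond_slot (d3 _ _ _) (d3 _ _ _) (d3 _ _ _) (d3 _ _ _) s₃ h₃ with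
    ⟨z1, z2, z3, z4, z5, z6⟩ | ⟨z1, z2, z3, z4, z5, z6⟩ | ⟨z1, z2, z3, z4, z5, z6⟩ |
      ⟨z1, z2, z3, z4, z5, z6⟩ <;>
  simp only [x1, x2, x3, x4, y1, y2, y3, y4, z1, z2, z3, z4, n1, n2, n3, a2, b2, p2, ab, ba, ap, pa,
    bp, pb, jacobiSym.mul_left, Nat.cast_mul, Nat.cast_one, mul_one, one_mul,
    jacobiSym.one_left, and_self] at x5 x6 y5 y6 z5 z6 ⊢ <;>
  omega

lemma sq161 : Squarefree (2 * 161) := by
  rw [show 2 * 161 = 2 * 7 * 23 by norm_num, Nat.squarefree_mul (by norm_num),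
    Nat.squarefree_mul (by norm_num)]
  exact ⟨⟨Nat.prime_two.squarefree, (by norm_num : Nat.Prime 7).squarefree⟩,
    (by norm_num : Nat.Prime 23).squarefree⟩

lemma rk_161p {p : ℕ} (hp : p.Prime) (h8 : p % 8 = 3) (h7 : p % 7 = 3) (h23 : p % 23 = 3) :
    rk ((161 * p : ℕ) : ℚ) = 0 := by
  apply rk_zero (by exact_mod_cast mul_ne_zero (by norm_num) hp.ne_zero)
  intro P
  have hodd : Odd p := Nat.odd_iff.2 (by omega)
  have hsq : Squarefree (2 * (161 * p)) := by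
    refine sqf hp sq161 ((Nat.Prime.coprime_iff_not_dvd hp).2 fun h => ?_).symm
    have := Nat.le_of_dvd (by norm_num) h
    have h1 : p = 3 := by omega
    subst h1
    norm_num at h
  have j2 : J(2 | p) = -1 := by
    rw [jacobiSym.at_two hodd, ZMod.χ₈_nat_eq_if_mod_eight]
    rw [if_neg (by omega), if_neg (by omega)]
  have pa : J((p : ℤ) | 7) = -1 := by
    rw [jacobiSym.mod_left, show (p : ℤ) % (7 : ℕ) = 3 by omega]; norm_num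
  have pb : J((p : ℤ) | 23) = 1 := by
    rw [jacobiSym.mod_left, show (p : ℤ) % (23 : ℕ) = 3 by omega]; norm_num
  have ap : J(((7 : ℕ) : ℤ) | p) = 1 := by
    rw [jacobiSym.quadratic_reciprocity_three_mod_four (by norm_num) (by omega), pa]; rfl
  have bp : J(((23 : ℕ) : ℤ) | p) = -1 := by
    rw [jacobiSym.quadratic_reciprocity_three_mod_four (by norm_num) (by omega), pb]
  obtain ⟨t, ht, H | ⟨A₁, B₁, C₁, D₁, A₂, B₂, C₂, D₂, A₃, B₃, C₃, D₃, s₁, s₂, s₃, H, h⟩⟩ :=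
    sel3 (N := 161 * p) (q₁ := 7) (q₂ := 23) (q₃ := p) rfl (Or.inr (by norm_num))
      (Or.inr (by norm_num)) (Or.inr hp) hsq P
  · exact ⟨t, ht, H⟩
  obtain ⟨e1, e2⟩ := cases3 (by norm_num) (by norm_num) (by omega) (by norm_num) (by norm_num) j2
    (by norm_num) (by norm_num) ap pa bp pb s₁ s₂ s₃ (h 7 (by norm_num)) (h 23 (by norm_num))
    (h p hp)
  rw [e1, e2] at H
  exact ⟨t, ht, by simpa using H⟩

lemma cases2 {a b : ℕ} (ha : a % 4 = 3) (hb : b % 4 = 3)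
    (a2 : J(2 | a) = 1) (b2 : J(2 | b) = 1) (ab : J((a : ℤ) | b) = -1) (ba : J((b : ℤ) | a) = 1)
    {A₁ B₁ C₁ D₁ A₂ B₂ C₂ D₂ : ℕ} (s₁ : Slot a A₁ B₁ C₁ D₁) (s₂ : Slot b A₂ B₂ C₂ D₂)
    (h₁ : Cond (A₁ * A₂ * 1) (B₁ * B₂ * 1) (C₁ * C₂ * 1) (D₁ * D₂ * 1) a)
    (h₂ : Cond (A₁ * A₂ * 1) (B₁ * B₂ * 1) (C₁ * C₂ * 1) (D₁ * D₂ * 1) b) :
    (B₁ * C₁ * (B₂ * C₂) * (1 * 1) = 1 ∧ A₁ * C₁ * (A₂ * C₂) * (1 * 1) = 1) ∨
    (B₁ * C₁ * (B₂ * C₂) * (1 * 1) = b ∧ A₁ * C₁ * (A₂ * C₂) * (1 * 1) = b) ∨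
    (B₁ * C₁ * (B₂ * C₂) * (1 * 1) = a * b ∧ A₁ * C₁ * (A₂ * C₂) * (1 * 1) = 1) ∨
    (B₁ * C₁ * (B₂ * C₂) * (1 * 1) = a ∧ A₁ * C₁ * (A₂ * C₂) * (1 * 1) = b) := by
  have n1 := jneg ha
  have n2 := jneg hb
  have d1 : ∀ x y z : ℕ, x ∣ x * y * z := fun x y z => ⟨y * z, by ring⟩
  have d2 : ∀ x y z : ℕ, y ∣ x * y * z := fun x y z => ⟨x * z, by ring⟩
  rcases cond_slot (d1 _ _ _) (d1 _ _ _) (d1 _ _ _) (d1 _ _ _) s₁ h₁ with
    ⟨x1, x2, x3, x4, x5, x6⟩ | ⟨x1, x2, x3, x4, x5, x6⟩ | ⟨x1, x2, x3, x4, x5, x6⟩ |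
      ⟨x1, x2, x3, x4, x5, x6⟩ <;>
  rcases cond_slot (d2 _ _ _) (d2 _ _ _) (d2 _ _ _) (d2 _ _ _) s₂ h₂ with
    ⟨y1, y2, y3, y4, y5, y6⟩ | ⟨y1, y2, y3, y4, y5, y6⟩ | ⟨y1, y2, y3, y4, y5, y6⟩ |
      ⟨y1, y2, y3, y4, y5, y6⟩ <;>
  simp only [x1, x2, x3, x4, y1, y2, y3, y4, n1, n2, a2, b2, ab, ba,
    jacobiSym.mul_left, Nat.cast_mul, Nat.cast_one, mul_one, one_mul,
    jacobiSym.one_left, and_self, true_or, or_true] at x5 x6 y5 y6 ⊢ <;>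
  omega

lemma not_mem_161 {R : G 161} {b c : ℚ} (H : Has 161 R b c) (hb : 0 < b) (h1 : ¬ IsSquare b)
    (h2 : ¬ IsSquare (c * 2)) : R ∉ HH 161 := by
  have hN : (161 : ℚ) ≠ 0 := by norm_num
  intro hR
  obtain ⟨t, ht, H2⟩ := (mem_HH hN R).1 hR
  have e : t = R + t + R + -(R + R) := by abel
  have H3 : Has 161 t b c := by
    obtain ⟨Q, hQ⟩ : ∃ Q : G 161, Q + Q = -(R + R) := ⟨-R, by abel⟩
    have := (H2.add hN H).add hN (hQ ▸ has_double hN Q)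
    rw [← e] at this
    simpa using this
  match t, ht, H3 with
  | 0, _, H3 => exact h1 (by simpa [al_zero] using H3.1)
  | .some x y h, ht, H3 =>
    have hy : y = 0 := by
      by_contra c3
      obtain ⟨l, x₃, y₃, h₃, a1, -⟩ := add_struct h h (fun hh => c3 (by linarith [hh.2]))
      rw [a1] at ht
      exact absurd ht (some_ne_zero _)
    have e2 := eqn h
    obtain ⟨u1, u2⟩ := H3
    rw [al_some] at u1 u2
    have u3 := u1.nonneg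
    have : x * (x - 161) * (x + 161) = 0 := by rw [hy] at e2; linear_combination -e2
    rcases mul_eq_zero.1 this with h4 | h4
    · rcases mul_eq_zero.1 h4 with h5 | h5
      · rw [if_pos h5] at u3
        nlinarith
      · rw [if_pos (sub_eq_zero.1 h5)] at u2
        obtain ⟨r, hr⟩ := u2
        exact h2 ⟨r / 161, by linear_combination (1 / 161 ^ 2) * hr⟩
    · have h5 : x = -161 := by linarith
      rw [if_neg (by rw [h5]; norm_num), h5] at u3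
      nlinarith

lemma rk_161 : rk ((161 : ℕ) : ℚ) = 2 := by
  have hN : ((161 : ℕ) : ℚ) ≠ 0 := by norm_num
  have s1 : (cn (161 : ℚ)).toAffine.Nonsingular 368 6348 := mkNS hN (by norm_num)
  have s2 : (cn (161 : ℚ)).toAffine.Nonsingular 289 4080 := mkNS hN (by norm_num)
  have s3 : (cn (161 : ℚ)).toAffine.Nonsingular 161 0 := mkNS hN (by norm_num)
  have g1 : Has 161 (.some _ _ s1) 23 23 :=
    ⟨⟨92, by rw [al_some]; norm_num⟩, ⟨69, by rw [al_some]; norm_num⟩⟩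
  have g2 : Has 161 (.some _ _ s2) 1 2 :=
    ⟨⟨17, by rw [al_some]; norm_num⟩, ⟨16, by rw [al_some]; norm_num⟩⟩
  have g3 : Has 161 (.some _ _ s3) 161 2 :=
    ⟨⟨161, by rw [al_some]; norm_num⟩, ⟨322, by rw [al_some]; norm_num⟩⟩
  obtain ⟨R, hR⟩ : ∃ R : G 161, Has 161 R 23 23 := ⟨_, g1⟩
  obtain ⟨S, hS⟩ : ∃ S : G 161, Has 161 S 161 1 := by
    obtain ⟨⟨r, hr⟩, ⟨s, hs⟩⟩ := g2.add hN g3
    exact ⟨_, ⟨r, by linear_combination hr⟩, ⟨s / 2, by linear_combination (1 / 4) * hs⟩⟩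
  have hRS : Has 161 (R + S) 7 23 := by
    obtain ⟨⟨r, hr⟩, ⟨s, hs⟩⟩ := hR.add hN hS
    exact ⟨⟨r / 23, by linear_combination (1 / 23 ^ 2) * hr⟩, ⟨s, by linear_combination hs⟩⟩
  have n1 : R ∉ HH 161 := not_mem_161 hR (by norm_num) (by norm_num)
    (by norm_num)
  have n2 : S ∉ HH 161 := not_mem_161 hS (by norm_num) (by norm_num)
    (by norm_num)
  have n3 : R + S ∉ HH 161 := not_mem_161 hRS (by norm_num) (by norm_num)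
    (by norm_num)
  have cover : ∀ P : G 161, ∃ t, t + t = 0 ∧
      ∃ U ∈ ({0, R, S, R + S} : Finset (G 161)), Has 161 (P + t + U) 1 1 := by
    intro P
    obtain ⟨t, ht, H | ⟨A₁, B₁, C₁, D₁, A₂, B₂, C₂, D₂, A₃, B₃, C₃, D₃, s₁, s₂, s₃, H, h⟩⟩ :=
      sel3 (N := 161) (q₁ := 7) (q₂ := 23) (q₃ := 1) rfl (Or.inr (by norm_num))
        (Or.inr (by norm_num)) (Or.inl rfl) sq161 P
    · exact ⟨t, ht, 0, by simp, by rwa [add_zero]⟩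
    obtain ⟨rfl, rfl, rfl, rfl⟩ := slot_one s₃
    refine ⟨t, ht, ?_⟩
    rcases cases2 (by norm_num) (by norm_num) (by norm_num) (by norm_num) (by norm_num)
      (by norm_num) s₁ s₂ (h 7 (by norm_num)) (h 23 (by norm_num)) with
      ⟨e1, e2⟩ | ⟨e1, e2⟩ | ⟨e1, e2⟩ | ⟨e1, e2⟩ <;> rw [e1, e2] at H
    · exact ⟨0, by simp, by rw [add_zero]; simpa using H⟩
    · exact ⟨R, by simp, (Has.add hN H hR).sq (by norm_num) (by norm_num)⟩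
    · exact ⟨S, by simp, (Has.add hN H hS).sq (by norm_num) (by norm_num)⟩
    · exact ⟨R + S, by simp, (Has.add hN H hRS).sq (by norm_num) (by norm_num)⟩
  have h1 := index_eq (fg_of_cover hN _ cover)
  have h2 : (HH 161).index = 4 := by
    have dbl : ∀ U : G 161, U + U ∈ HH 161 := fun U =>
      (mem_HH hN _).2 ⟨0, add_zero _, by rw [add_zero]; exact has_double hN U⟩
    have ne : ∀ U V W : G 161, W ∉ HH 161 → (∃ Z, W = -U + V + (Z + Z)) →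
        (QuotientAddGroup.mk U : G 161 ⧸ HH 161) ≠ QuotientAddGroup.mk V := by
      rintro U V W hW ⟨Z, rfl⟩ h
      exact hW (add_mem (QuotientAddGroup.eq.1 h) (dbl Z))
    have huniv : (Set.univ : Set (G 161 ⧸ HH 161)) = {QuotientAddGroup.mk 0, QuotientAddGroup.mk R,
        QuotientAddGroup.mk S, QuotientAddGroup.mk (R + S)} := by
      symm
      rw [Set.eq_univ_iff_forall]
      intro z
      obtain ⟨P, rfl⟩ := QuotientAddGroup.mk_surjective z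
      obtain ⟨t, ht, U, hU, H⟩ := cover P
      have h3 : P + U ∈ HH 161 := (mem_HH hN _).2 ⟨t, ht, by rwa [add_right_comm]⟩
      have h4 : (QuotientAddGroup.mk P : G 161 ⧸ HH 161) = QuotientAddGroup.mk U := by
        refine QuotientAddGroup.eq.2 ?_
        have := sub_mem (dbl U) h3
        convert this using 1
        abel
      rw [h4]
      simp only [Finset.mem_insert, Finset.mem_singleton] at hU
      rcases hU with rfl | rfl | rfl | rfl <;> simp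
    rw [AddSubgroup.index, ← Set.ncard_univ, huniv]
    have a1 := ne 0 R R n1 ⟨0, by abel⟩
    have a2 := ne 0 S S n2 ⟨0, by abel⟩
    have a3 := ne 0 (R + S) (R + S) n3 ⟨0, by abel⟩
    have a4 := ne R S (R + S) n3 ⟨R, by abel⟩
    have a5 := ne R (R + S) S n2 ⟨0, by abel⟩
    have a6 := ne S (R + S) R n1 ⟨0, by abel⟩
    rw [Set.ncard_insert_of_notMem (by simp only [Set.mem_insert_iff, Set.mem_singleton_iff]; tauto),
      Set.ncard_insert_of_notMem (by simp only [Set.mem_insert_iff, Set.mem_singleton_iff]; tauto),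
      Set.ncard_pair a6]
  have h3 : 2 ^ 2 = 2 ^ rk ((161 : ℕ) : ℚ) := h2.symm.trans h1
  exact (Nat.pow_right_injective le_rfl h3).symm

end Pool.Agent.LocInv
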